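import Pool.Agent.H47.PL.Targets2

/-!
Random k-CNFs and search at the scale of SETH (MP_c62aed_lc): the exceptional clauses (WEX).
-/

set_option autoImplicit false

namespace Pool.Agent.H7.PL

open Finset Pool.Agent.H97.RK Pool.Agent.H47.PL

private theorem num8 (n : ℕ) (hn : 1 ≤ n) : 8 * (n : ℝ) ≤ 16 ^ n := by
  have h1 : n ≤ 2 ^ n := Nat.lt_two_pow_self.le
  have h2 : (8 : ℕ) ≤ 8 ^ n := by
    calc 8 = 8 ^ 1 := by norm_num
      _ ≤ 8 ^ n := Nat.pow_le_pow_right (by norm_num) hn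
  have h3 : 8 * n ≤ 16 ^ n := by
    calc 8 * n ≤ 8 ^ n * 2 ^ n := Nat.mul_le_mul h2 h1
      _ = (8 * 2) ^ n := (mul_pow _ _ _).symm
  exact_mod_cast h3

private theorem expK (α R : ℝ) (hα : 0 < α) :
    ∃ K : ℕ, 1 ≤ K ∧ ∀ k : ℕ, K ≤ k → R * Real.exp (-(α ^ 2 * k / 4)) ≤ 1 / 4 := by
  refine ⟨⌈16 * R / α ^ 2⌉₊ + 1, by omega, fun k hk => ?_⟩
  have h1 : 16 * R / α ^ 2 ≤ k :=
    (Nat.le_ceil _).trans (by exact_mod_cast (Nat.le_of_succ_le hk))
  have hα2 : 0 < α ^ 2 := by positivity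
  have h2 : 16 * R ≤ k * α ^ 2 := (div_le_iff₀ hα2).1 h1
  have h3 := Real.add_one_le_exp (α ^ 2 * k / 4)
  have h4 : 4 * R ≤ Real.exp (α ^ 2 * k / 4) := by linarith
  rw [Real.exp_neg, ← div_eq_mul_inv, div_le_iff₀ (Real.exp_pos _)]
  linarith

private theorem card_le_of {X : Type} {s : Finset X} {p q : X → Prop} {ip : DecidablePred p}
    {iq : DecidablePred q} (h : ∀ x, p x → q x) :
    ((s.filter p).card : ℝ) ≤ (s.filter q).card :=
  Nat.cast_le.2 (card_le_card (monotone_filter_right s fun x _ => h x))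

open Classical in
/-- (WEX) the exceptional clauses. -/
theorem pf_WEX (hWVC : T_WVC) (hWM2 : T_WM2) : T_WEX := by
  intro α η Γ' hα hα1 hη hΓ
  obtain ⟨S, hS⟩ := exists_nat_ge (6 / η + 1)
  have hS6 : 6 ≤ (S : ℝ) * η := by
    have h1 : 6 / η ≤ S := by linarith
    exact (div_le_iff₀ hη).1 h1
  have hS1 : 1 ≤ S := by
    have h1 : (1 : ℝ) ≤ S := by
      have : 0 < 6 / η := by positivity
      linarith
    exact_mod_cast h1
  obtain ⟨R, hR⟩ : ∃ R : ℝ, R = 2 ^ (2 * Γ' * S) := ⟨_, rfl⟩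
  obtain ⟨s, hs⟩ : ∃ s : ℝ, s = (1 / 2) ^ S := ⟨_, rfl⟩
  have hR1 : 1 ≤ R := by
    rw [hR]
    exact one_le_pow₀ (by norm_num)
  have hs0 : 0 < s := by
    rw [hs]
    positivity
  have hs2 : s ≤ 1 / 2 := by
    rw [hs]
    calc (1 / 2 : ℝ) ^ S ≤ (1 / 2) ^ 1 := pow_le_pow_of_le_one (by norm_num) (by norm_num) hS1
      _ = 1 / 2 := pow_one _
  have hsR : 1 ≤ s ^ (2 * Γ') * R := by
    rw [hs, hR, ← pow_mul, mul_comm S (2 * Γ'), ← mul_pow]
    norm_num
  obtain ⟨K, hK1, hK⟩ := expK α R hα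
  refine ⟨K, hK1, fun n k m w Ω Y hKk hkn hw hΩ hY => ?_⟩
  have hk1 : 1 ≤ k := hK1.trans hKk
  have hn1 : 1 ≤ n := hk1.trans hkn
  obtain ⟨Q, hQ⟩ : ∃ Q : (Fin n → Bool) → Finset (Fin n) → (Fin k → Fin n × Bool) → Prop,
      ∀ y D g, Q y D g ↔ Vi y g ∧ Xc α D g := ⟨fun y D g => Vi y g ∧ Xc α D g, fun _ _ _ => Iff.rfl⟩
  let E : (Fin n → Bool) → Finset (Fin n) → Finset (Fml n k m) := fun y D =>
    univ.filter fun F => (∀ c, F c ∈ Ω) ∧ w ≤ (univ.filter fun c => Vi y (F c)).card ∧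
      (univ.filter fun c => Vi y (F c)).card <
        Γ' * (univ.filter fun c => Q y D (F c)).card
  have hE : ∀ y ∈ Y, ∀ D, ((E y D).card : ℝ) ≤ s ^ w * (Ω.card : ℝ) ^ m := by
    intro y hy D
    have h0 := hWM2 (Fin k → Fin n × Bool) m w Γ' Ω (Vi y) (Q y D) s R hs0
      (hs2.trans (by norm_num)) hR1 hsR (fun _ h => ((hQ _ _ _).1 h).1)
    refine le_trans (card_le_of fun F h => h) (h0 ?_)
    clear h0
    have h2 := (hWVC n k α D y y hn1 hkn hα hα1).2.2
    have h3 : ((Ω.filter (Q y D)).card : ℝ) ≤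
        ((Om n k).filter fun g => Vi y g ∧ Xc α D g).card := by
      have h : Ω.filter (Q y D) ⊆ (Om n k).filter fun g => Vi y g ∧ Xc α D g := by
        intro g hg
        rw [mem_filter] at hg ⊢
        exact ⟨hΩ hg.1, (hQ _ _ _).1 hg.2⟩
      exact_mod_cast card_le_card h
    have h4 : (n.descFactorial k : ℝ) ≤ 2 * (Ω.filter (Vi y)).card := by
      exact_mod_cast hY y hy
    have h5 := hK k hKk
    obtain ⟨P, hP⟩ : ∃ P : ℝ, P = (Ω.filter (Vi y)).card := ⟨_, rfl⟩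
    obtain ⟨P', hP'⟩ : ∃ P' : ℝ, P' = (Ω.filter (Q y D)).card := ⟨_, rfl⟩
    rw [← hP] at h4 ⊢
    rw [← hP'] at h3 ⊢
    have hP0 : 0 ≤ P := by
      rw [hP]
      exact Nat.cast_nonneg _
    have hP'0 : 0 ≤ P' := by
      rw [hP']
      exact Nat.cast_nonneg _
    have hR0 : 0 ≤ R := by linarith
    have h6 : R * P' ≤ 1 / 2 * P := by
      calc R * P' ≤ R * (Real.exp (-(α ^ 2 * k / 4)) * n.descFactorial k) :=
            mul_le_mul_of_nonneg_left (h3.trans h2) hR0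
        _ = (R * Real.exp (-(α ^ 2 * k / 4))) * n.descFactorial k := by ring
        _ ≤ 1 / 4 * n.descFactorial k := mul_le_mul_of_nonneg_right h5 (Nat.cast_nonneg _)
        _ ≤ 1 / 4 * (2 * P) := mul_le_mul_of_nonneg_left h4 (by norm_num)
        _ = 1 / 2 * P := by ring
    calc s * P + s * R * P' = s * (P + R * P') := by ring
      _ ≤ 1 / 2 * (P + 1 / 2 * P) :=
          mul_le_mul hs2 (by linarith) (by positivity) (by norm_num)
      _ ≤ P := by linarith
  have hsub : (univ.filter fun F : Fml n k m => (∀ c, F c ∈ Ω) ∧ ∃ y ∈ Y, w ≤ (vio F y).card ∧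
      ∃ D : Finset (Fin n), (vio F y).card < Γ' *
        ((vio F y).filter fun c => ((D.card : ℝ) / n + α) * k < inn F c D).card) ⊆
      Y.biUnion fun y => univ.biUnion fun D => E y D := by
    intro F hF
    rw [mem_filter] at hF
    obtain ⟨-, hF1, y, hy, hw1, D, hD⟩ := hF
    rw [mem_biUnion]
    refine ⟨y, hy, ?_⟩
    rw [mem_biUnion]
    refine ⟨D, mem_univ _, ?_⟩
    have h1 : (univ.filter fun c => Vi y (F c)) = vio F y := by
      ext c
      unfold vio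
      rw [mem_filter, mem_filter]
      exact Iff.rfl
    have h2 : (univ.filter fun c => Q y D (F c)) =
        (vio F y).filter fun c => ((D.card : ℝ) / n + α) * k < inn F c D := by
      ext c
      rw [← h1, mem_filter, mem_filter, mem_filter, and_assoc, hQ]
      exact Iff.rfl
    rw [mem_filter]
    refine ⟨mem_univ _, hF1, ?_, ?_⟩
    · rw [h1]
      exact hw1
    · rw [h1, h2]
      exact hD
  obtain ⟨N, hN⟩ : ∃ N : ℝ, N = (Ω.card : ℝ) ^ m := ⟨_, rfl⟩
  rw [← hN] at hE ⊢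
  have hN0 : 0 ≤ N := by
    rw [hN]
    positivity
  have hc1 : ((univ.filter fun F : Fml n k m => (∀ c, F c ∈ Ω) ∧ ∃ y ∈ Y, w ≤ (vio F y).card ∧
      ∃ D : Finset (Fin n), (vio F y).card < Γ' *
        ((vio F y).filter fun c => ((D.card : ℝ) / n + α) * k < inn F c D).card).card : ℝ) ≤
      2 ^ n * (2 ^ n * (s ^ w * N)) := by
    have h1 : ((univ.filter fun F : Fml n k m => (∀ c, F c ∈ Ω) ∧ ∃ y ∈ Y, w ≤ (vio F y).card ∧
        ∃ D : Finset (Fin n), (vio F y).card < Γ' *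
        ((vio F y).filter fun c => ((D.card : ℝ) / n + α) * k < inn F c D).card).card : ℝ) ≤
        ∑ y ∈ Y, ∑ D : Finset (Fin n), ((E y D).card : ℝ) := by
      have h2 := (card_le_card hsub).trans (card_biUnion_le.trans
        (sum_le_sum fun y _ => card_biUnion_le))
      exact_mod_cast h2
    have h3 : ∑ y ∈ Y, ∑ D : Finset (Fin n), ((E y D).card : ℝ) ≤
        ∑ _y ∈ Y, 2 ^ n * (s ^ w * N) := by
      refine sum_le_sum fun y hy => ?_
      refine (sum_le_sum fun D _ => hE y hy D).trans (le_of_eq ?_)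
      rw [sum_const, card_univ, Fintype.card_finset, Fintype.card_fin, nsmul_eq_mul]
      push_cast
      ring
    refine h1.trans (h3.trans ?_)
    rw [sum_const, nsmul_eq_mul]
    have h4 : (Y.card : ℝ) ≤ 2 ^ n := by
      have h5 := card_le_univ Y
      rw [Fintype.card_fun, Fintype.card_bool, Fintype.card_fin] at h5
      exact_mod_cast h5
    exact mul_le_mul_of_nonneg_right h4 (by positivity)
  have hsw : s ^ w ≤ (1 / 64) ^ n := by
    have h1 : 6 * n ≤ S * w := by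
      have h2 : (6 : ℝ) * n ≤ S * w := by
        calc (6 : ℝ) * n ≤ S * η * n := mul_le_mul_of_nonneg_right hS6 (Nat.cast_nonneg _)
          _ = S * (η * n) := by ring
          _ ≤ S * w := mul_le_mul_of_nonneg_left hw (Nat.cast_nonneg _)
      exact_mod_cast h2
    rw [hs, ← pow_mul]
    calc (1 / 2 : ℝ) ^ (S * w) ≤ (1 / 2) ^ (6 * n) :=
          pow_le_pow_of_le_one (by norm_num) (by norm_num) h1
      _ = (1 / 64) ^ n := by
          rw [pow_mul]
          norm_num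
  have h8 := num8 n hn1
  calc 8 * (n : ℝ) * _ ≤ 16 ^ n * (2 ^ n * (2 ^ n * (s ^ w * N))) :=
        mul_le_mul h8 hc1 (Nat.cast_nonneg _) (by positivity)
    _ ≤ 16 ^ n * (2 ^ n * (2 ^ n * ((1 / 64) ^ n * N))) := by gcongr
    _ = (16 * 2 * 2 * (1 / 64)) ^ n * N := by
        rw [mul_pow, mul_pow, mul_pow]
        ring
    _ = N := by norm_num

end Pool.Agent.H7.PL
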