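import Pool.Agent.H47.PL.Targets2
import Pool.Agent.H47.PL.FNP

/-!
Random k-CNFs and search at the scale of SETH (MP_c62aed_lc): almost all formulas are flat (WUN).
-/

set_option autoImplicit false

namespace Pool.Agent.H7.PL

open Finset Pool.Agent.H97.RK Pool.Agent.H47.PL

private theorem card_le_of {X : Type} {s : Finset X} {p q : X → Prop} {ip : DecidablePred p}
    {iq : DecidablePred q} (h : ∀ x, p x → q x) :
    ((s.filter p).card : ℝ) ≤ (s.filter q).card :=
  Nat.cast_le.2 (card_le_card (monotone_filter_right s fun x _ => h x))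

open Classical in
private theorem card_Dist' (n k m : ℕ) :
    ((univ.filter fun F : Fml n k m => Dist F).card : ℝ) = ((Om n k).card : ℝ) ^ m := by
  have h1 : (univ.filter fun F : Fml n k m => Dist F) =
      Fintype.piFinset fun _ : Fin m => Om n k := by
    ext F
    rw [mem_filter, Fintype.mem_piFinset, Dist_iff]
    exact ⟨fun h => h.2, fun h => ⟨mem_univ _, h⟩⟩
  rw [h1, Fintype.card_piFinset_const, Nat.cast_pow]

open Classical in
/-- (WUN) almost all formulas are flat. -/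
theorem pf_WUN (hWVC : T_WVC) (hWM1 : T_WM1) (hWGN : T_WGN) (hWEX : T_WEX) : T_WUN := by
  intro α δ Γ' hα hα1 hδ hΓ
  obtain ⟨θ, η, hθ0, hθ1, hη, K₁, hK₁, hG⟩ := hWGN (δ / 2) (by positivity)
  obtain ⟨K₂, hK₂, hX⟩ := hWEX α η Γ' hα hα1 hη hΓ
  obtain ⟨K₃, hK₃⟩ := exp_num (δ / 4) (by positivity)
  refine ⟨K₁ + K₂ + K₃, by omega, fun K' k n m hKK hKk hKn hm => ?_⟩
  have hK'1 : 1 ≤ K' := by omega
  have hkn : k ≤ n := (Nat.le_mul_of_pos_left k hK'1).trans hKn
  have hn1 : 1 ≤ n := by omega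
  have hn0 : (0 : ℝ) < n := by exact_mod_cast hn1
  obtain ⟨w, hwdef⟩ : ∃ w : ℕ, w = ⌈η * (n : ℝ)⌉₊ := ⟨_, rfl⟩
  have hw1 : η * n ≤ w := by
    rw [hwdef]
    exact Nat.le_ceil _
  have hw2 : (w : ℝ) ≤ η * n + 1 := by
    rw [hwdef]
    exact (Nat.ceil_lt_add_one (by positivity)).le
  have hw0 : 1 ≤ w := by
    rw [hwdef]
    exact Nat.one_le_iff_ne_zero.2 (Nat.ceil_pos.2 (by positivity)).ne'
  obtain ⟨N, hN⟩ : ∃ N : ℝ, N = ((Om n k).card : ℝ) ^ m := ⟨_, rfl⟩
  have hN0 : 0 ≤ N := by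
    rw [hN]
    positivity
  obtain ⟨G, hGdef⟩ : ∃ G : ℝ, G = 2 ^ n * guess n k m := ⟨_, rfl⟩
  have hG0 : 0 < G := by
    rw [hGdef]
    unfold guess
    have h1 : (0 : ℝ) ≤ 1 - (1 / 2 : ℝ) ^ k := by
      have := pow_le_one₀ (n := k) (show (0 : ℝ) ≤ 1 / 2 by norm_num) (by norm_num)
      linarith
    positivity
  rw [card_Dist', ← hN, ← hGdef]
  -- the two bad events
  obtain ⟨P1, hP1⟩ : ∃ P1 : Fml n k m → Prop, ∀ F, P1 F ↔ ((∀ c, F c ∈ Om n k) ∧
      ∃ y ∈ (univ : Finset (Fin n → Bool)), w ≤ (vio F y).card ∧ ∃ D : Finset (Fin n),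
        (vio F y).card < Γ' * ((vio F y).filter fun c =>
          ((D.card : ℝ) / n + α) * k < inn F c D).card) := ⟨_, fun _ => Iff.rfl⟩
  obtain ⟨BF, hBF⟩ : ∃ BF : Fml n k m → Finset (Fin n → Bool), ∀ F y,
      y ∈ BF F ↔ (vio F y).card < w := ⟨fun F => univ.filter fun y => (vio F y).card < w,
        fun F y => mfi⟩
  obtain ⟨P2, hP2⟩ : ∃ P2 : Fml n k m → Prop, ∀ F, P2 F ↔ ((∀ c, F c ∈ Om n k) ∧
      (2 : ℝ) ^ (δ * n) * G < (BF F).card) := ⟨_, fun _ => Iff.rfl⟩
  have hdf : (0 : ℝ) < n.descFactorial k := by exact_mod_cast Nat.descFactorial_pos.2 hkn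
  have hVi : ∀ y : Fin n → Bool, ((Om n k).filter (Vi y)).card = n.descFactorial k :=
    fun y => (hWVC n k α ∅ y y hn1 hkn hα hα1).1
  -- the first event
  have hb1 : 8 * (n : ℝ) * ((univ.filter P1).card : ℝ) ≤ N := by
    have h1 := hX n k m w (Om n k) univ (by omega) hkn hw1 (Subset.refl _) (fun y _ => by
      rw [hVi y]
      omega)
    rw [← hN] at h1
    refine le_trans (mul_le_mul_of_nonneg_left ?_ (by positivity)) h1
    exact card_le_of fun F h => (hP1 F).1 h
  -- the second event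
  have hb2 : 8 * (n : ℝ) * ((univ.filter P2).card : ℝ) ≤ N := by
    have h1 : ((univ.filter P2).card : ℝ) * ((2 : ℝ) ^ (δ * n) * G) ≤
        ∑ F ∈ univ.filter P2, ((BF F).card : ℝ) := by
      rw [← nsmul_eq_mul]
      refine card_nsmul_le_sum _ _ _ fun F hF => ?_
      exact ((hP2 F).1 (mfi.1 hF)).2.le
    have h2 : ∑ F ∈ univ.filter P2, (BF F).card =
        ∑ y : Fin n → Bool, ((univ.filter P2).filter fun F => (vio F y).card < w).card := by
      have h3 := sum_card_bipartiteAbove_eq_sum_card_bipartiteBelow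
        (s := univ.filter P2) (t := (univ : Finset (Fin n → Bool)))
        (fun F y => (vio F y).card < w)
      refine Eq.trans (sum_congr rfl fun F _ => ?_) h3
      congr 1
      ext y
      rw [hBF, mem_bipartiteAbove]
      exact ⟨fun h => ⟨mem_univ _, h⟩, fun h => h.2⟩
    have h3 : ∀ y : Fin n → Bool,
        (((univ.filter P2).filter fun F => (vio F y).card < w).card : ℝ) * θ ^ w ≤
          N * (1 - (1 - θ) * 1 / 2 ^ k) ^ m := by
      intro y
      have h4 := hWM1 (Fin k → Fin n × Bool) m w (Om n k) (Vi y) θ hθ0 hθ1.le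
      have h5 : (((univ.filter P2).filter fun F => (vio F y).card < w).card : ℝ) * θ ^ w ≤
          ((Om n k).card - (1 - θ) * (((Om n k).filter (Vi y)).card : ℝ)) ^ m := by
        refine le_trans (mul_le_mul_of_nonneg_right ?_ (by positivity)) h4
        rw [filter_filter]
        refine card_le_of fun F h => ⟨((hP2 F).1 h.1).1, ?_⟩
        refine lt_of_le_of_lt (card_le_card fun c hc => ?_) h.2
        unfold vio
        rw [mem_filter] at hc ⊢
        exact hc
      refine h5.trans (le_of_eq ?_)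
      rw [hVi y, hN, ← mul_pow, card_Om_real]
      congr 1
      field_simp
    have h4 := hG K' k n m w 1 (by omega) (by omega) (by omega) hm hw2 (by linarith) le_rfl
    rw [← hGdef] at h4
    have hθw : 0 < θ ^ w := by positivity
    have h5 : (∑ F ∈ univ.filter P2, ((BF F).card : ℝ)) * θ ^ w ≤
        N * (θ ^ w * ((2 : ℝ) ^ (δ / 2 * n) * G)) := by
      have h6 : (∑ F ∈ univ.filter P2, ((BF F).card : ℝ)) =
          ∑ y : Fin n → Bool,
            (((univ.filter P2).filter fun F => (vio F y).card < w).card : ℝ) := by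
        exact_mod_cast h2
      rw [h6, sum_mul]
      refine (sum_le_sum fun y _ => h3 y).trans ?_
      rw [sum_const, card_univ, Fintype.card_fun, Fintype.card_fin, Fintype.card_bool,
        nsmul_eq_mul]
      push_cast
      calc (2 : ℝ) ^ n * (N * (1 - (1 - θ) * 1 / 2 ^ k) ^ m)
          = N * (2 ^ n * (1 - (1 - θ) * 1 / 2 ^ k) ^ m) := by ring
        _ ≤ _ := mul_le_mul_of_nonneg_left h4 hN0
    have h6 : (∑ F ∈ univ.filter P2, ((BF F).card : ℝ)) ≤ N * ((2 : ℝ) ^ (δ / 2 * n) * G) := by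
      refine le_of_mul_le_mul_right (h5.trans (le_of_eq ?_)) hθw
      ring
    have h7 : (2 : ℝ) ^ (δ * n) = (2 : ℝ) ^ (δ / 2 * n) * (2 : ℝ) ^ (δ / 2 * n) := by
      rw [← Real.rpow_add (by norm_num)]
      congr 1
      ring
    have h8 : (2 : ℝ) ^ (δ / 2 * n) = (2 : ℝ) ^ (δ / 4 * n) * (2 : ℝ) ^ (δ / 4 * n) := by
      rw [← Real.rpow_add (by norm_num)]
      congr 1
      ring
    have h9 : 8 * (n : ℝ) ≤ (2 : ℝ) ^ (δ / 2 * n) := by
      have h10 := hK₃ n (by omega)
      have h11 : (1 : ℝ) ≤ n := by exact_mod_cast hn1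
      rw [h8]
      nlinarith
    have hE : 0 < (2 : ℝ) ^ (δ / 2 * n) := by positivity
    have h10 : ((univ.filter P2).card : ℝ) * (2 : ℝ) ^ (δ / 2 * n) ≤ N := by
      have h11 := h1.trans h6
      rw [h7] at h11
      refine le_of_mul_le_mul_right ?_ (mul_pos hE hG0)
      calc ((univ.filter P2).card : ℝ) * (2 : ℝ) ^ (δ / 2 * n) * ((2 : ℝ) ^ (δ / 2 * n) * G)
          = ((univ.filter P2).card : ℝ) * ((2 : ℝ) ^ (δ / 2 * n) * (2 : ℝ) ^ (δ / 2 * n) * G) := by
            ring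
        _ ≤ _ := h11
    calc 8 * (n : ℝ) * ((univ.filter P2).card : ℝ)
        ≤ (2 : ℝ) ^ (δ / 2 * n) * ((univ.filter P2).card : ℝ) :=
          mul_le_mul_of_nonneg_right h9 (Nat.cast_nonneg _)
      _ = ((univ.filter P2).card : ℝ) * (2 : ℝ) ^ (δ / 2 * n) := mul_comm _ _
      _ ≤ N := h10
  -- together
  have hc : ((univ.filter fun F : Fml n k m => Dist F ∧ ¬ ∃ B, Loc F α Γ' B ∧
      (B.card : ℝ) ≤ (2 : ℝ) ^ (δ * n) * G).card : ℝ) ≤
      ((univ.filter P1).card : ℝ) + ((univ.filter P2).card : ℝ) := by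
    have h1 : (univ.filter fun F : Fml n k m => Dist F ∧ ¬ ∃ B, Loc F α Γ' B ∧
        (B.card : ℝ) ≤ (2 : ℝ) ^ (δ * n) * G) ⊆ univ.filter P1 ∪ univ.filter P2 := by
      intro F hF
      obtain ⟨hF1, hF2⟩ := mfi.1 hF
      rw [mem_union]
      by_contra hcon
      rw [not_or] at hcon
      have hn1' : ¬ P1 F := fun h => hcon.1 (mfi.2 h)
      have hn2' : ¬ P2 F := fun h => hcon.2 (mfi.2 h)
      have hO := (Dist_iff F).1 hF1
      apply hF2
      refine ⟨BF F, ⟨fun y hy => ?_, fun y hy D => ?_⟩, ?_⟩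
      · rw [hBF, not_lt] at hy
        exact card_pos.1 (by omega)
      · rw [hBF, not_lt] at hy
        by_contra h
        rw [not_le] at h
        exact hn1' ((hP1 F).2 ⟨hO, y, mem_univ _, hy, D, h⟩)
      · by_contra h
        rw [not_le] at h
        exact hn2' ((hP2 F).2 ⟨hO, h⟩)
    exact_mod_cast (card_le_card h1).trans (card_union_le _ _)
  have hfin : 4 * (n : ℝ) * ((univ.filter fun F : Fml n k m => Dist F ∧ ¬ ∃ B, Loc F α Γ' B ∧
      (B.card : ℝ) ≤ (2 : ℝ) ^ (δ * n) * G).card : ℝ) ≤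
      4 * (n : ℝ) * (((univ.filter P1).card : ℝ) + ((univ.filter P2).card : ℝ)) :=
    mul_le_mul_of_nonneg_left hc (by positivity)
  linarith

end Pool.Agent.H7.PL
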