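import Mathlib
import Pool.Agent.H93.CP.All

/-!
# The topological Vaught conjecture and actions on Euclidean spaces

A continuous action of a Polish group on the Cantor space gives a continuous action of a Polish
group on `ℝⁿ`, `n ≥ 2`, with the same orbits up to countably many.
-/

set_option autoImplicit false

open Set Filter Topology

namespace Pool.Agent.H7.PL

open Pool.Agent.H93.CP

/-- Euclidean space of dimension `n + 2` -/
abbrev Eu (n : ℕ) : Type := EuclideanSpace ℝ (Fin (n + 2))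

/-- unit vectors -/
noncomputable def ev {n : ℕ} (a : Fin (n + 2)) : Eu n := EuclideanSpace.single a (1 : ℝ)

lemma ev_same {n : ℕ} (a : Fin (n + 2)) : (ev a : Eu n) a = 1 := by simp [ev]

lemma ev_ne {n : ℕ} {a b : Fin (n + 2)} (h : a ≠ b) : (ev b : Eu n) a = 0 := by
  simp [ev, h]

/-- shears -/
noncomputable def shear {n : ℕ} (φ : C(ℝ, ℝ)) (a b : Fin (n + 2)) (hab : a ≠ b) :
    Eu n ≃ₜ Eu n where
  toFun x := x + φ (x a) • ev b
  invFun x := x - φ (x a) • ev b
  left_inv x := by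
    have h : (x + φ (x a) • ev b : Eu n) a = x a := by
      simp [ev_ne hab]
    simp only [h]
    abel
  right_inv x := by
    have h : (x - φ (x a) • ev b : Eu n) a = x a := by
      simp [ev_ne hab]
    simp only [h]
    abel
  continuous_toFun := by fun_prop
  continuous_invFun := by fun_prop

lemma shear_apply {n : ℕ} (φ : C(ℝ, ℝ)) (a b : Fin (n + 2)) (hab : a ≠ b) (x : Eu n) :
    shear φ a b hab x = x + φ (x a) • ev b := rfl

/-- Klee's trick -/
theorem klee {n : ℕ} (ι : (ℕ → Bool) → ℝ) (hι : IsClosedEmbedding ι)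
    (g : (ℕ → Bool) ≃ₜ (ℕ → Bool)) :
    ∃ h : Eu n ≃ₜ Eu n, ∀ x, h (ι x • ev 0) = ι (g x) • ev 0 := by
  obtain ⟨φ, hφ⟩ := ContinuousMap.exists_extension' hι
    ⟨fun x => ι (g x), hι.continuous.comp g.continuous⟩
  obtain ⟨ψ, hψ⟩ := ContinuousMap.exists_extension' hι
    ⟨fun x => ι (g.symm x), hι.continuous.comp g.symm.continuous⟩
  have h1 : ∀ x, φ (ι x) = ι (g x) := fun x => congrFun hφ x
  have h2 : ∀ x, ψ (ι x) = ι (g.symm x) := fun x => congrFun hψ x
  have h01 : (0 : Fin (n + 2)) ≠ 1 := by simp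
  have h10 : (1 : Fin (n + 2)) ≠ 0 := by simp
  refine ⟨(((shear φ 0 1 h01).trans (shear (-ψ) 1 0 h10)).trans
    (shear (ContinuousMap.id ℝ) 1 0 h10)).trans (shear (-ContinuousMap.id ℝ) 0 1 h01), ?_⟩
  intro x
  have a1 : shear φ 0 1 h01 (ι x • ev 0 : Eu n) = ι x • ev 0 + ι (g x) • ev 1 := by
    rw [shear_apply]
    simp [ev_same, h1]
  have a2 : shear (-ψ) 1 0 h10 (ι x • ev 0 + ι (g x) • ev 1 : Eu n) = ι (g x) • ev 1 := by
    rw [shear_apply]
    have : (ι x • ev 0 + ι (g x) • ev 1 : Eu n) 1 = ι (g x) := by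
      simp [ev_same, ev_ne h10]
    rw [this]
    simp [h2]
  have a3 : shear (ContinuousMap.id ℝ) 1 0 h10 (ι (g x) • ev 1 : Eu n) =
      ι (g x) • ev 1 + ι (g x) • ev 0 := by
    rw [shear_apply]
    simp [ev_same]
  have a4 : shear (-ContinuousMap.id ℝ) 0 1 h01 (ι (g x) • ev 1 + ι (g x) • ev 0 : Eu n) =
      ι (g x) • ev 0 := by
    rw [shear_apply]
    have : (ι (g x) • ev 1 + ι (g x) • ev 0 : Eu n) 0 = ι (g x) := by
      simp [ev_same, ev_ne h01]
    rw [this]
    simp
  simp only [Homeomorph.trans_apply]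
  rw [a1, a2, a3, a4]

/-- local homogeneity -/
theorem bump {n : ℕ} (p q : Eu n) (r : ℝ) (hq : dist q p < r) :
    ∃ h : Eu n ≃ₜ Eu n, h p = q ∧ ∀ x, r ≤ dist x p → h x = x := by
  have hr : 0 < r := lt_of_le_of_lt dist_nonneg hq
  set w : Eu n := q - p with hw
  have hwr : ‖w‖ < r := by rwa [hw, ← dist_eq_norm]
  set β : Eu n → ℝ := fun x => max 0 (1 - dist x p / r) with hβ
  set f : Eu n → Eu n := fun x => x + β x • w with hf
  obtain ⟨c, hc⟩ : ∃ c : NNReal, (c : ℝ) = ‖w‖ / r :=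
    ⟨(‖w‖ / r).toNNReal, Real.coe_toNNReal _ (by positivity)⟩
  have hlip : ∀ x y, |β x - β y| ≤ ‖x - y‖ / r := by
    intro x y
    have e1 : |β x - β y| ≤ |(1 - dist x p / r) - (1 - dist y p / r)| := by
      have := abs_max_sub_max_le_max 0 (1 - dist x p / r) 0 (1 - dist y p / r)
      simpa [hβ] using this
    have e2 : (1 - dist x p / r) - (1 - dist y p / r) = (dist y p - dist x p) / r := by ring
    rw [e2, abs_div, abs_of_pos hr] at e1
    refine e1.trans ?_
    have e3 : |dist y p - dist x p| ≤ ‖x - y‖ := by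
      refine (abs_dist_sub_le y x p).trans ?_
      rw [dist_comm y x]
      exact (dist_eq_norm x y).le
    gcongr
  have happ : ApproximatesLinearOn f
      ((ContinuousLinearEquiv.refl ℝ (Eu n) : Eu n ≃L[ℝ] Eu n) : Eu n →L[ℝ] Eu n) univ c := by
    intro x _ y _
    have e1 : f x - f y - ((ContinuousLinearEquiv.refl ℝ (Eu n) : Eu n ≃L[ℝ] Eu n) :
        Eu n →L[ℝ] Eu n) (x - y) = (β x - β y) • w := by
      simp [hf, sub_smul]
      abel
    rw [e1, norm_smul, Real.norm_eq_abs]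
    calc |β x - β y| * ‖w‖ ≤ (‖x - y‖ / r) * ‖w‖ := by gcongr; exact hlip x y
      _ = (c : ℝ) * ‖x - y‖ := by rw [hc]; ring
  have hN : Subsingleton (Eu n) ∨ c <
      (‖((ContinuousLinearEquiv.refl ℝ (Eu n)).symm : Eu n →L[ℝ] Eu n)‖₊)⁻¹ := by
    right
    have : (‖((ContinuousLinearEquiv.refl ℝ (Eu n)).symm : Eu n →L[ℝ] Eu n)‖₊) = 1 := by
      have : ((ContinuousLinearEquiv.refl ℝ (Eu n)).symm : Eu n →L[ℝ] Eu n) =
          ContinuousLinearMap.id ℝ (Eu n) := rfl
      rw [this]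
      ext
      simp
    rw [this, inv_one]
    rw [← NNReal.coe_lt_coe, hc, NNReal.coe_one]
    rwa [div_lt_one hr]
  refine ⟨happ.toHomeomorph f hN, ?_, ?_⟩
  · change f p = q
    simp [hf, hβ, hw]
  · intro x hx
    change f x = x
    have : β x = 0 := by
      simp only [hβ]
      rw [max_eq_left]
      have : 1 ≤ dist x p / r := by rwa [le_div_iff₀ hr, one_mul]
      linarith
    simp [hf, this]

instance secOne (n : ℕ) : SecondCountableTopology (OnePoint (Eu n)) := by
  have h : Module.finrank ℝ (Eu n) + 1 = Fintype.card (Fin (n + 3)) := by simp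
  exact (onePointEquivSphereOfFinrankEq (ι := Fin (n + 3)) (V := Eu n) h).secondCountableTopology

section Group

variable {n : ℕ} {Γ : Type} [TopologicalSpace Γ] [Group Γ] [IsTopologicalGroup Γ]
  [MulAction Γ (ℕ → Bool)]

open OnePoint

/-- pairs of a homeomorphism of the plane and an element of `Γ` which agree on the Cantor set -/
def Pair (Γ : Type) [TopologicalSpace Γ] [Group Γ] [IsTopologicalGroup Γ]
    [MulAction Γ (ℕ → Bool)] (j : (ℕ → Bool) → Eu n) : Subgroup (HC (OnePoint (Eu n)) Γ) where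
  carrier := {a | a.h ∞ = ∞ ∧ (∀ y, a.c y = a.c ∞) ∧
    ∀ x, a.h (j x : Eu n) = ((j (a.c ∞ • x) : Eu n) : OnePoint (Eu n))}
  mul_mem' := by
    rintro a b ⟨a1, a2, a3⟩ ⟨b1, b2, b3⟩
    refine ⟨?_, ?_, ?_⟩
    · rw [HC.mul_h, b1, a1]
    · intro y
      rw [HC.mul_c, HC.mul_c, a2 (b.h y), a2 (b.h ∞), b2 y]
    · intro x
      rw [HC.mul_h, HC.mul_c, b3, a3, b1, mul_smul]
  one_mem' := ⟨rfl, fun y => rfl, fun x => by simp⟩
  inv_mem' := by
    rintro a ⟨a1, a2, a3⟩
    have h1 : a.h.symm ∞ = ∞ := by rw [Homeomorph.symm_apply_eq, a1]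
    refine ⟨?_, ?_, ?_⟩
    · rw [HC.inv_h, h1]
    · intro y
      rw [HC.inv_c, HC.inv_c, a2 (a.h.symm y), h1]
    · intro x
      rw [HC.inv_h, HC.inv_c, h1, Homeomorph.symm_apply_eq, a3, smul_inv_smul]

variable {j : (ℕ → Bool) → Eu n}

lemma ne_inf (a : Pair Γ j) (p : Eu n) : a.1.h (p : OnePoint (Eu n)) ≠ ∞ := by
  intro h
  have := a.2.1
  rw [← this] at h
  exact OnePoint.coe_ne_infty p (a.1.h.injective h)

/-- the action on the plane -/
noncomputable def act (a : Pair Γ j) (p : Eu n) : Eu n :=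
  Classical.choose (OnePoint.ne_infty_iff_exists.1 (ne_inf a p))

lemma act_spec (a : Pair Γ j) (p : Eu n) :
    ((act a p : Eu n) : OnePoint (Eu n)) = a.1.h (p : OnePoint (Eu n)) :=
  Classical.choose_spec (OnePoint.ne_infty_iff_exists.1 (ne_inf a p))

noncomputable instance actInst : MulAction (Pair Γ j) (Eu n) where
  smul a p := act a p
  one_smul p := by
    apply OnePoint.coe_injective
    change ((act 1 p : Eu n) : OnePoint (Eu n)) = p
    rw [act_spec]
    rfl
  mul_smul a b p := by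
    apply OnePoint.coe_injective
    change ((act (a * b) p : Eu n) : OnePoint (Eu n)) = ((act a (act b p) : Eu n) : _)
    rw [act_spec, act_spec, act_spec]
    rfl

lemma smul_spec (a : Pair Γ j) (p : Eu n) :
    ((a • p : Eu n) : OnePoint (Eu n)) = a.1.h (p : OnePoint (Eu n)) := act_spec a p

lemma smul_j (a : Pair Γ j) (x : ℕ → Bool) : a • j x = j (a.1.c ∞ • x) := by
  apply OnePoint.coe_injective
  rw [smul_spec]
  exact a.2.2.2 x

/-- `Pair` is closed. -/
theorem closed_pair [T2Space Γ] (hc : Continuous (fun p : Γ × (ℕ → Bool) => p.1 • p.2))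
    (hj : Continuous j) : IsClosed (Pair Γ j : Set (HC (OnePoint (Eu n)) Γ)) := by
  obtain ⟨_, h2, h3⟩ := r_HTG (OnePoint (Eu n)) Γ
  have hh : ∀ z : OnePoint (Eu n), Continuous (fun a : HC (OnePoint (Eu n)) Γ => a.h z) :=
    fun z => h2.comp (continuous_id.prodMk continuous_const)
  have e : (Pair Γ j : Set (HC (OnePoint (Eu n)) Γ)) = {a | a.h ∞ = ∞} ∩
      ((⋂ y, {a | a.c y = a.c ∞}) ∩
        ⋂ x, {a | a.h (j x : Eu n) = ((j (a.c ∞ • x) : Eu n) : OnePoint (Eu n))}) := by
    ext a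
    simp only [mem_inter_iff, mem_iInter]
    rfl
  rw [e]
  refine (isClosed_eq (hh ∞) continuous_const).inter
    ((isClosed_iInter fun y => isClosed_eq (h3 y) (h3 ∞)).inter
      (isClosed_iInter fun x => isClosed_eq (hh _) ?_))
  exact OnePoint.continuous_coe.comp (hj.comp (hc.comp ((h3 ∞).prodMk continuous_const)))

theorem continuous_act :
    Continuous (fun p : Pair Γ j × Eu n => p.1 • p.2) := by
  obtain ⟨_, h2, _⟩ := r_HTG (OnePoint (Eu n)) Γ
  rw [OnePoint.isOpenEmbedding_coe.isInducing.continuous_iff]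
  have e : (fun x : Eu n => (x : OnePoint (Eu n))) ∘ (fun p : Pair Γ j × Eu n => p.1 • p.2) =
      fun p => p.1.1.h (p.2 : OnePoint (Eu n)) := by
    funext p
    exact smul_spec p.1 p.2
  rw [e]
  exact h2.comp ((continuous_subtype_val.comp continuous_fst).prodMk
    (OnePoint.continuous_coe.comp continuous_snd))

/-- an element from a homeomorphism -/
def mk (h : Eu n ≃ₜ Eu n) (g : Γ) (hg : ∀ x, h (j x) = j (g • x)) : Pair Γ j :=
  ⟨⟨h.onePointCongr, ContinuousMap.const _ g⟩, rfl, fun _ => rfl, fun x => by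
    change ((h (j x) : Eu n) : OnePoint (Eu n)) = _
    rw [hg]
    rfl⟩

lemma mk_smul (h : Eu n ≃ₜ Eu n) (g : Γ) (hg : ∀ x, h (j x) = j (g • x)) (p : Eu n) :
    mk h g hg • p = h p := by
  apply OnePoint.coe_injective
  rw [smul_spec]
  rfl

end Group

/-- off the Cantor set there are only countably many orbits -/
theorem off {n : ℕ} {Γ : Type} [TopologicalSpace Γ] [Group Γ] [IsTopologicalGroup Γ]
    [MulAction Γ (ℕ → Bool)] (j : (ℕ → Bool) → Eu n) (hj : IsClosed (range j)) :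
    ∃ A : Set (Eu n), A.Countable ∧ ∀ p, p ∉ range j → ∃ a : Pair Γ j, a • p ∈ A := by
  have h1 : ∀ p : Eu n, ∃ r > 0, p ∉ range j → ∀ x ∈ range j, r ≤ dist x p := by
    intro p
    by_cases hp : p ∈ range j
    · exact ⟨1, one_pos, fun h => absurd hp h⟩
    · obtain ⟨r, hr, hr2⟩ := Metric.isOpen_iff.1 hj.isOpen_compl p hp
      refine ⟨r, hr, fun _ x hx => ?_⟩
      by_contra hlt
      exact hr2 (Metric.mem_ball.2 (not_le.1 hlt)) hx
  choose r hr hr2 using h1
  obtain ⟨A, hAs, hA, hA2⟩ := TopologicalSpace.countable_cover_nhdsWithin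
    (s := (range j)ᶜ) (f := fun p => Metric.ball p (r p))
    (fun p _ => mem_nhdsWithin_of_mem_nhds (Metric.ball_mem_nhds p (hr p)))
  refine ⟨A, hA, fun q hq => ?_⟩
  obtain ⟨p, hp, hqp⟩ := mem_iUnion₂.1 (hA2 hq)
  obtain ⟨h, h2, h3⟩ := bump p q (r p) (Metric.mem_ball.1 hqp)
  refine ⟨mk h.symm 1 (fun x => ?_), ?_⟩
  · rw [one_smul, Homeomorph.symm_apply_eq]
    exact (h3 _ (hr2 p (hAs hp) _ (mem_range_self x))).symm
  · rw [mk_smul, ← h2, Homeomorph.symm_apply_apply]
    exact hp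

/-- interleaving avoids a countable set -/
theorem avoid (N : Set (ℕ → Bool)) (hN : N.Countable) :
    ∃ g : (ℕ → Bool) → (ℕ → Bool), Continuous g ∧ Function.Injective g ∧ ∀ u, g u ∉ N := by
  -- even places: u, odd places: t
  set G : (ℕ → Bool) → (ℕ → Bool) → (ℕ → Bool) := fun t u k =>
    if k % 2 = 0 then u (k / 2) else t (k / 2) with hG
  have hodd : ∀ t u k, G t u (2 * k + 1) = t k := by
    intro t u k
    have h1 : (2 * k + 1) % 2 = 1 := by omega
    have h2 : (2 * k + 1) / 2 = k := by omega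
    simp [hG, h1, h2]
  have heven : ∀ t u k, G t u (2 * k) = u k := by
    intro t u k
    have h1 : (2 * k) % 2 = 0 := by omega
    have h2 : (2 * k) / 2 = k := by omega
    simp [hG, h2]
  have hc : ((fun (y : ℕ → Bool) k => y (2 * k + 1)) '' N).Countable := hN.image _
  obtain ⟨t, ht⟩ : ∃ t, t ∉ (fun (y : ℕ → Bool) k => y (2 * k + 1)) '' N := by
    by_contra hcon
    have hu : (univ : Set (ℕ → Bool)).Countable := hc.mono fun t _ => by
      by_contra ht
      exact hcon ⟨t, ht⟩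
    have hu2 : Countable (ℕ → Bool) := Set.countable_univ_iff.1 hu
    obtain ⟨e, he⟩ := exists_surjective_nat (ℕ → Bool)
    obtain ⟨m, hm⟩ := he (fun k => !(e k k))
    have := congrFun hm m
    simp at this
  refine ⟨G t, ?_, ?_, ?_⟩
  · refine continuous_pi fun k => ?_
    by_cases hk : k % 2 = 0
    · simp only [hG, hk, if_true]
      exact continuous_apply _
    · simp only [hG, hk, if_false]
      exact continuous_const
  · intro u v huv
    funext k
    have := congrFun huv (2 * k)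
    rwa [heven, heven] at this
  · intro u hu
    exact ht ⟨G t u, hu, funext fun k => hodd t u k⟩

/-- From the Cantor set to Euclidean space. -/
theorem plane (n : ℕ) (Γ : Type) [TopologicalSpace Γ] [Group Γ] [IsTopologicalGroup Γ]
    [PolishSpace Γ] [MulAction Γ (ℕ → Bool)]
    (hc : Continuous (fun p : Γ × (ℕ → Bool) => p.1 • p.2)) :
    ∃ (Δ : Type) (_ : TopologicalSpace Δ) (_ : Group Δ) (_ : IsTopologicalGroup Δ)
      (_ : PolishSpace Δ) (_ : MulAction Δ (Eu n)),
      Continuous (fun p : Δ × Eu n => p.1 • p.2) ∧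
      (CMO Δ (Eu n) ↔ CMO Γ (ℕ → Bool)) ∧ (PMO Δ (Eu n) ↔ PMO Γ (ℕ → Bool)) := by
  obtain ⟨ι, -, hι1, hι2⟩ : ∃ ι : (ℕ → Bool) → ℝ, range ι ⊆ univ ∧ Continuous ι ∧
      Function.Injective ι := by
    apply Perfect.exists_nat_bool_injection _ univ_nonempty
    exact PerfectSpace.univ_perfect ℝ
  have hι : IsClosedEmbedding ι := hι1.isClosedEmbedding hι2
  set j : (ℕ → Bool) → Eu n := fun x => ι x • ev 0 with hj
  have hjc : Continuous j := hι1.smul continuous_const
  have hji : Function.Injective j := by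
    intro x y hxy
    have := congrArg (fun z : Eu n => z 0) hxy
    simp only [hj] at this
    simpa [ev_same, hι2.eq_iff] using this
  have hje : IsClosedEmbedding j := hjc.isClosedEmbedding hji
  have htop : IsTopologicalGroup (HC (OnePoint (Eu n)) Γ) := (r_HTG (OnePoint (Eu n)) Γ).1
  have hpol : PolishSpace (HC (OnePoint (Eu n)) Γ) := r_HPO (OnePoint (Eu n)) Γ
  have hcl := closed_pair (Γ := Γ) (j := j) hc hjc
  have hkl : ∀ g : Γ, ∃ a : Pair Γ j, a.1.c OnePoint.infty = g := by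
    intro g
    have hg : ∀ g : Γ, Continuous (fun x : ℕ → Bool => g • x) := fun g =>
      hc.comp (continuous_const.prodMk continuous_id)
    obtain ⟨h, hh⟩ := klee (n := n) ι hι
      ⟨⟨fun x => g • x, fun x => g⁻¹ • x, fun x => by simp, fun x => by simp⟩, hg g, hg g⁻¹⟩
    exact ⟨mk h g hh, rfl⟩
  obtain ⟨A0, hA0, hA1⟩ := off (Γ := Γ) j hje.isClosed_range
  refine ⟨Pair Γ j, inferInstance, inferInstance, inferInstance, hcl.polishSpace, inferInstance,
    continuous_act, ⟨?_, ?_⟩, ⟨?_, ?_⟩⟩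
  · rintro ⟨A, hA, h⟩
    refine ⟨j ⁻¹' A, hA.preimage hji, fun x => ?_⟩
    obtain ⟨a, ha⟩ := h (j x)
    refine ⟨a.1.c OnePoint.infty, ?_⟩
    rw [mem_preimage, ← smul_j (j := j)]
    exact ha
  · rintro ⟨A, hA, h⟩
    refine ⟨j '' A ∪ A0, (hA.image j).union hA0, fun p => ?_⟩
    by_cases hp : p ∈ range j
    · obtain ⟨x, rfl⟩ := hp
      obtain ⟨g, hg⟩ := h x
      obtain ⟨a, rfl⟩ := hkl g
      exact ⟨a, Or.inl ⟨_, hg, (smul_j a x).symm⟩⟩
    · obtain ⟨a, ha⟩ := hA1 p hp
      exact ⟨a, Or.inr ha⟩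
  · rintro ⟨f, hf, h⟩
    -- at most countably many values off the Cantor set
    have hcount : {u | f u ∉ range j}.Countable := by
      have h1 : ∀ u, ∃ a : Pair Γ j, f u ∉ range j → a • f u ∈ A0 := by
        intro u
        by_cases hu : f u ∈ range j
        · exact ⟨1, fun h => absurd hu h⟩
        · obtain ⟨a, ha⟩ := hA1 _ hu
          exact ⟨a, fun _ => ha⟩
      choose a ha using h1
      refine MapsTo.countable_of_injOn (f := fun u => a u • f u) (t := A0)
        (fun u hu => ha u hu) ?_ hA0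
      intro u hu v hv huv
      by_contra hne
      apply h u v hne ((a v)⁻¹ * a u)
      change a u • f u = a v • f v at huv
      rw [mul_smul, huv, inv_smul_smul]
    obtain ⟨g, hg1, hg2, hg3⟩ := avoid _ hcount
    have h2 : ∀ u, ∃ x, j x = f (g u) := by
      intro u
      by_contra hcon
      exact hg3 u fun ⟨x, hx⟩ => hcon ⟨x, hx⟩
    choose F hF using h2
    refine ⟨F, ?_, ?_⟩
    · have h3 : Measurable (j ∘ F) := by
        have : j ∘ F = f ∘ g := funext hF
        rw [this]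
        exact hf.comp hg1.measurable
      exact hje.measurableEmbedding.measurable_comp_iff.1 h3
    · intro u v huv γ hγ
      obtain ⟨b, rfl⟩ := hkl γ
      apply h (g u) (g v) (fun hh => huv (hg2 hh)) b
      rw [← hF, ← hF, smul_j, hγ]
  · rintro ⟨f, hf, h⟩
    refine ⟨j ∘ f, hjc.measurable.comp hf, fun u v huv a ha => ?_⟩
    have h1 : a • j (f u) = j (f v) := ha
    rw [smul_j] at h1
    exact h u v huv _ (hji h1)

/-- From the Cantor set to Euclidean space, all dimensions from two on. -/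
theorem euclid (n : ℕ) (hn : 2 ≤ n) (Γ : Type) [TopologicalSpace Γ] [Group Γ]
    [IsTopologicalGroup Γ] [PolishSpace Γ] [MulAction Γ (ℕ → Bool)]
    (hc : Continuous (fun p : Γ × (ℕ → Bool) => p.1 • p.2)) :
    ∃ (Δ : Type) (_ : TopologicalSpace Δ) (_ : Group Δ) (_ : IsTopologicalGroup Δ)
      (_ : PolishSpace Δ) (_ : MulAction Δ (EuclideanSpace ℝ (Fin n))),
      Continuous (fun p : Δ × EuclideanSpace ℝ (Fin n) => p.1 • p.2) ∧
      (CMO Δ (EuclideanSpace ℝ (Fin n)) ↔ CMO Γ (ℕ → Bool)) ∧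
      (PMO Δ (EuclideanSpace ℝ (Fin n)) ↔ PMO Γ (ℕ → Bool)) := by
  obtain ⟨m, rfl⟩ := Nat.exists_eq_add_of_le' hn
  exact plane m Γ hc

end Pool.Agent.H7.PL
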